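import Mathlib
import Pool.Agent.H523R4.BitClone

set_option autoImplicit false

/-!
Families of sets closed under intersections with large symmetric differences; codes closed under a
Boolean operation which is not affine.
-/

namespace Pool.Agent.X27.Code

open Finset
open Pool.Agent.H523R4.BC (IsAffine Closed)

theorem meet_bound {α : Type} [DecidableEq α] (d : ℕ) (hd : 0 < d) :
    ∀ (m : ℕ) (X : Finset α) (F : Finset (Finset α)), X.card ≤ m → (∀ A ∈ F, A ⊆ X) →
      (∀ A ∈ F, ∀ B ∈ F, A ∩ B ∈ F) →
      (∀ A ∈ F, ∀ B ∈ F, A ≠ B → d ≤ (symmDiff A B).card) →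
      F.card ≤ 2 ^ (X.card / d) := by
  intro m
  induction m with
  | zero =>
    intro X F hX hsub _ _
    have hX0 : X = ∅ := by
      rw [← Finset.card_eq_zero]; omega
    have h1 : F ⊆ {∅} := by
      intro A hA
      have := hsub A hA
      rw [hX0] at this
      simp [Finset.subset_empty.1 this]
    have h2 := Finset.card_le_card h1
    rw [Finset.card_singleton] at h2
    exact h2.trans Nat.one_le_two_pow
  | succ m ih =>
    intro X F hX hsub hmeet hsep
    by_cases hT : ∃ T ∈ F, T ≠ ∅ ∧ T ≠ X
    · obtain ⟨T, hTF, hT0, hTX⟩ := hT
      have hTsub := hsub T hTF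
      have hTpos : 0 < T.card := Finset.card_pos.2 (Finset.nonempty_iff_ne_empty.2 hT0)
      have hTlt : T.card < X.card := Finset.card_lt_card (Finset.ssubset_iff_subset_ne.2 ⟨hTsub, hTX⟩)
      have hsd : (X \ T).card = X.card - T.card := by
        rw [Finset.card_sdiff_of_subset hTsub]
      set I := F.image (fun A => A ∩ T) with hI
      have hIF : ∀ B ∈ I, B ∈ F := by
        intro B hB
        rw [hI, Finset.mem_image] at hB
        obtain ⟨A, hA, rfl⟩ := hB
        exact hmeet A hA T hTF
      have h1 : I.card ≤ 2 ^ (T.card / d) := by
        refine ih T I (by omega) ?_ ?_ ?_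
        · intro B hB
          rw [hI, Finset.mem_image] at hB
          obtain ⟨A, hA, rfl⟩ := hB
          exact Finset.inter_subset_right
        · intro B hB B' hB'
          rw [hI, Finset.mem_image] at hB hB' ⊢
          obtain ⟨A, hA, rfl⟩ := hB
          obtain ⟨A', hA', rfl⟩ := hB'
          refine ⟨A ∩ A', hmeet A hA A' hA', ?_⟩
          ext x
          simp only [Finset.mem_inter]
          tauto
        · intro B hB B' hB' hne
          exact hsep B (hIF B hB) B' (hIF B' hB') hne
      have h2 : ∀ B ∈ I, (F.filter (fun A => A ∩ T = B)).card ≤ 2 ^ ((X \ T).card / d) := by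
        intro B _
        set G := F.filter (fun A => A ∩ T = B) with hG
        have hGm : ∀ A, A ∈ G ↔ A ∈ F ∧ A ∩ T = B := by
          intro A; rw [hG, Finset.mem_filter]
        have hrec : ∀ A ∈ G, A = B ∪ (A \ T) := by
          intro A hA
          have h3 := ((hGm A).1 hA).2
          ext x
          have h4 : x ∈ A ∩ T ↔ x ∈ B := by rw [h3]
          rw [Finset.mem_inter] at h4
          rw [Finset.mem_union, Finset.mem_sdiff, ← h4]
          tauto
        have hinj : Set.InjOn (fun A : Finset α => A \ T) G := by
          intro A hA A' hA' hAA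
          have e1 := hrec A hA
          have e2 := hrec A' hA'
          have e3 : A \ T = A' \ T := hAA
          rw [e1, e2, e3]
        rw [← Finset.card_image_of_injOn hinj]
        refine ih (X \ T) _ (by omega) ?_ ?_ ?_
        · intro B' hB'
          rw [Finset.mem_image] at hB'
          obtain ⟨A, hA, rfl⟩ := hB'
          exact Finset.sdiff_subset_sdiff (hsub A ((hGm A).1 hA).1) (le_refl _)
        · intro B1 hB1 B2 hB2
          rw [Finset.mem_image] at hB1 hB2 ⊢
          obtain ⟨A, hA, rfl⟩ := hB1
          obtain ⟨A', hA', rfl⟩ := hB2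
          have hA1 := (hGm A).1 hA
          have hA2 := (hGm A').1 hA'
          refine ⟨A ∩ A', (hGm _).2 ⟨hmeet A hA1.1 A' hA2.1, ?_⟩, ?_⟩
          · have e : A ∩ A' ∩ T = (A ∩ T) ∩ (A' ∩ T) := by
              ext x; simp only [Finset.mem_inter]; tauto
            rw [e, hA1.2, hA2.2, Finset.inter_self]
          · ext x
            simp only [Finset.mem_inter, Finset.mem_sdiff]
            tauto
        · intro B1 hB1 B2 hB2 hne
          rw [Finset.mem_image] at hB1 hB2
          obtain ⟨A, hA, rfl⟩ := hB1
          obtain ⟨A', hA', rfl⟩ := hB2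
          have hA1 := (hGm A).1 hA
          have hA2 := (hGm A').1 hA'
          have hAA : A ≠ A' := fun h => hne (by rw [h])
          refine (hsep A hA1.1 A' hA2.1 hAA).trans (Finset.card_le_card ?_)
          intro x hx
          rw [Finset.mem_symmDiff] at hx ⊢
          have h4 : x ∈ A ∩ T ↔ x ∈ A' ∩ T := by rw [hA1.2, hA2.2]
          rw [Finset.mem_inter, Finset.mem_inter] at h4
          simp only [Finset.mem_sdiff]
          tauto
      have h3 : F.card = ∑ B ∈ I, (F.filter (fun A => A ∩ T = B)).card :=
        Finset.card_eq_sum_card_image _ _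
      calc F.card = ∑ B ∈ I, (F.filter (fun A => A ∩ T = B)).card := h3
        _ ≤ ∑ _B ∈ I, 2 ^ ((X \ T).card / d) := Finset.sum_le_sum h2
        _ = I.card * 2 ^ ((X \ T).card / d) := by rw [Finset.sum_const, smul_eq_mul]
        _ ≤ 2 ^ (T.card / d) * 2 ^ ((X \ T).card / d) := Nat.mul_le_mul_right _ h1
        _ = 2 ^ (T.card / d + (X \ T).card / d) := by rw [pow_add]
        _ ≤ 2 ^ (X.card / d) := by
            refine Nat.pow_le_pow_right (by norm_num) ?_
            have h5 : T.card + (X \ T).card = X.card := by omega
            rw [← h5]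
            exact Nat.div_add_div_le_add_div
    · push Not at hT
      have h1 : F ⊆ {∅, X} := by
        intro A hA
        by_cases hA0 : A = ∅
        · simp [hA0]
        · simp [hT A hA (Finset.nonempty_iff_ne_empty.2 hA0)]
      by_cases h2 : F.card ≤ 1
      · exact h2.trans Nat.one_le_two_pow
      · obtain ⟨A, hA, B, hB, hAB⟩ := Finset.one_lt_card.1 (by omega : 1 < F.card)
        have h3 := hsep A hA B hB hAB
        have h4 : (symmDiff A B).card ≤ X.card := by
          refine Finset.card_le_card ?_
          intro x hx
          rw [Finset.mem_symmDiff] at hx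
          rcases hx with h | h
          · exact hsub A hA h.1
          · exact hsub B hB h.1
        have h5 : 1 ≤ X.card / d := (Nat.one_le_div_iff hd).2 (h3.trans h4)
        calc F.card ≤ ({∅, X} : Finset (Finset α)).card := Finset.card_le_card h1
          _ ≤ 2 := Finset.card_le_two
          _ = 2 ^ 1 := by norm_num
          _ ≤ 2 ^ (X.card / d) := Nat.pow_le_pow_right (by norm_num) h5

/-- after a translation a set closed under a non-affine operation is closed under `and` -/
theorem translate_any {ι : Type} {k : ℕ} (f : (Fin k → Bool) → Bool) (hf : ¬ IsAffine f)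
    (C : Set (ι → Bool)) (hC : Closed f C) (hne : C.Nonempty) :
    ∃ z : ι → Bool, ∀ x ∈ C, ∀ y ∈ C,
      (fun j => ((x j ^^ z j) && (y j ^^ z j)) ^^ z j) ∈ C := by
  cases h0 : f (fun _ => false) with
  | false => exact Pool.Agent.H523R4.BC.translate f hf h0 C hC hne
  | true =>
    cases h1 : f (fun _ => true) with
    | false =>
      -- compose with the negation
      have hneg : ∀ p : Bool, f (fun _ => p) = !p := by
        intro p; cases p
        · exact h0
        · exact h1
      have hf' : ¬ IsAffine (fun x => !f x) := by
        intro h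
        apply hf
        intro x y z
        have := h x y z
        simp only at this
        revert this
        generalize f (fun i => (x i ^^ y i) ^^ z i) = a
        generalize f x = b
        generalize f y = c
        generalize f z = e
        cases a <;> cases b <;> cases c <;> cases e <;> simp
      refine Pool.Agent.H523R4.BC.translate (fun x => !f x) hf' (by simp [h0]) C ?_ hne
      intro a ha
      have h2 := hC (fun _ => fun j => f (fun i => a i j)) (fun _ => hC a ha)
      have h3 : (fun j => f (fun _ : Fin k => f (fun i => a i j))) =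
          (fun j => !f (fun i => a i j)) := by
        funext j; rw [hneg]
      rw [h3] at h2
      exact h2
    | true =>
      -- dualise
      set g : (Fin k → Bool) → Bool := fun x => !f (fun i => !x i) with hg
      have hg' : ¬ IsAffine g := by
        intro h
        apply hf
        intro x y z
        have := h (fun i => !x i) (fun i => !y i) (fun i => !z i)
        rw [hg] at this
        simp only [Bool.not_not] at this
        have e : (fun i => !((!x i ^^ !y i) ^^ !z i)) = (fun i => (x i ^^ y i) ^^ z i) := by
          funext i
          cases x i <;> cases y i <;> cases z i <;> rfl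
        rw [e] at this
        revert this
        generalize f (fun i => (x i ^^ y i) ^^ z i) = a
        generalize f x = b
        generalize f y = c
        generalize f z = e
        cases a <;> cases b <;> cases c <;> cases e <;> simp
      have hg0 : g (fun _ => false) = false := by
        rw [hg]; simp [h1]
      set D : Set (ι → Bool) := {x | (fun j => !x j) ∈ C} with hD
      have hDC : Closed g D := by
        intro a ha
        have h2 := hC (fun i => fun j => !a i j) (fun i => ha i)
        change (fun j => !(g (fun i => a i j))) ∈ C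
        have h3 : (fun j => !(g (fun i => a i j))) = (fun j => f (fun i => !a i j)) := by
          funext j
          rw [hg]
          simp
        rw [h3]
        exact h2
      have hDne : D.Nonempty := by
        obtain ⟨c, hc⟩ := hne
        refine ⟨fun j => !c j, ?_⟩
        change (fun j => !(!c j)) ∈ C
        simpa using hc
      obtain ⟨z, hz⟩ := Pool.Agent.H523R4.BC.translate g hg' hg0 D hDC hDne
      refine ⟨fun j => !z j, fun x hx y hy => ?_⟩
      have hx' : (fun j => !x j) ∈ D := by
        change (fun j => !(!x j)) ∈ C
        simpa using hx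
      have hy' : (fun j => !y j) ∈ D := by
        change (fun j => !(!y j)) ∈ C
        simpa using hy
      have h2 := hz _ hx' _ hy'
      change (fun j => !(((!x j ^^ z j) && (!y j ^^ z j)) ^^ z j)) ∈ C at h2
      have h3 : (fun j => !(((!x j ^^ z j) && (!y j ^^ z j)) ^^ z j)) =
          (fun j => ((x j ^^ !z j) && (y j ^^ !z j)) ^^ !z j) := by
        funext j
        cases x j <;> cases y j <;> cases z j <;> rfl
      rw [h3] at h2
      exact h2

/-- a code of minimum distance `d` closed under a non-affine operation has at most
`2 ^ (n / d)` elements -/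
theorem nonaffine_bound {n k : ℕ} (f : (Fin k → Bool) → Bool) (hf : ¬ IsAffine f)
    (C : Finset (Fin n → Bool)) (hC : Closed f (C : Set (Fin n → Bool))) (d : ℕ) (hd : 0 < d)
    (hdist : ∀ x ∈ C, ∀ y ∈ C, x ≠ y → d ≤ hammingDist x y) :
    C.card ≤ 2 ^ (n / d) := by
  classical
  rcases C.eq_empty_or_nonempty with h | h
  · rw [h]; simp
  obtain ⟨z, hz⟩ := translate_any f hf (C : Set (Fin n → Bool)) hC (by exact_mod_cast h)
  set φ : (Fin n → Bool) → Finset (Fin n) :=
    fun x => univ.filter (fun j => (x j ^^ z j) = true) with hφ
  have hφm : ∀ x j, j ∈ φ x ↔ (x j ^^ z j) = true := by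
    intro x j; rw [hφ]; simp
  have hinj : Function.Injective φ := by
    intro x y hxy
    funext j
    have h1 : j ∈ φ x ↔ j ∈ φ y := by rw [hxy]
    rw [hφm, hφm] at h1
    revert h1
    cases x j <;> cases y j <;> cases z j <;> simp
  rw [← Finset.card_image_of_injective C hinj]
  have hcard : (univ : Finset (Fin n)).card = n := by simp
  rw [show n / d = (univ : Finset (Fin n)).card / d by rw [hcard]]
  refine meet_bound d hd n univ _ (by rw [hcard]) (fun A _ => Finset.subset_univ A) ?_ ?_
  · intro A hA B hB
    rw [Finset.mem_image] at hA hB ⊢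
    obtain ⟨x, hx, rfl⟩ := hA
    obtain ⟨y, hy, rfl⟩ := hB
    refine ⟨_, hz x hx y hy, ?_⟩
    ext j
    rw [Finset.mem_inter, hφm, hφm, hφm]
    cases x j <;> cases y j <;> cases z j <;> simp
  · intro A hA B hB hne
    rw [Finset.mem_image] at hA hB
    obtain ⟨x, hx, rfl⟩ := hA
    obtain ⟨y, hy, rfl⟩ := hB
    have hxy : x ≠ y := fun h => hne (by rw [h])
    refine (hdist x hx y hy hxy).trans (le_of_eq ?_)
    unfold hammingDist
    congr 1
    ext j
    rw [Finset.mem_symmDiff, hφm, hφm]
    simp only [mem_filter, mem_univ, true_and]
    cases x j <;> cases y j <;> cases z j <;> simp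

end Pool.Agent.X27.Code
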