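import Mathlib
import Pool.Agent.X27.Code.Meet
import Pool.Agent.H523R4.Xor

set_option autoImplicit false

/-!
Block codes; linear codes with the all-one word (Gilbert's bound).
-/

namespace Pool.Agent.X27.Code

open Finset
open Pool.Agent.H523R4.BC (IsAffine Closed DependsOn)

/-- the block code: `q` blocks of at least `d` coordinates -/
theorem block_code {n d : ℕ} (hd : 0 < d) (hdn : d ≤ n) :
    ∃ C : Finset (Fin n → Bool), C.card = 2 ^ (n / d) ∧
      (∀ x ∈ C, ∀ y ∈ C, x ≠ y → d ≤ hammingDist x y) ∧
      ∀ (k : ℕ) (f : (Fin k → Bool) → Bool), Closed f (C : Set (Fin n → Bool)) := by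
  classical
  set q := n / d with hq
  have hq1 : 1 ≤ q := (Nat.one_le_div_iff hd).2 hdn
  have hqd : q * d ≤ n := Nat.div_mul_le_self n d
  -- block index
  let b : Fin n → Fin q := fun j => ⟨min (j.1 / d) (q - 1), by omega⟩
  have hb : ∀ i : Fin q, d ≤ (univ.filter (fun j : Fin n => b j = i)).card := by
    intro i
    have h1 : (Finset.univ.image (fun t : Fin d => (⟨i.1 * d + t.1, by
        have := i.2
        have := t.2
        have h3 : (i.1 + 1) * d ≤ q * d := Nat.mul_le_mul_right _ i.2
        have h4 : (i.1 + 1) * d = i.1 * d + d := by ring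
        omega⟩ : Fin n))) ⊆ univ.filter (fun j : Fin n => b j = i) := by
      intro j hj
      rw [Finset.mem_image] at hj
      obtain ⟨t, _, rfl⟩ := hj
      rw [Finset.mem_filter]
      refine ⟨Finset.mem_univ _, ?_⟩
      apply Fin.ext
      change min ((i.1 * d + t.1) / d) (q - 1) = i.1
      have h5 : (i.1 * d + t.1) / d = i.1 := by
        rw [Nat.mul_comm, Nat.mul_add_div hd, Nat.div_eq_of_lt t.2, Nat.add_zero]
      rw [h5]
      have := i.2
      omega
    refine le_trans (le_of_eq ?_) (Finset.card_le_card h1)
    rw [Finset.card_image_of_injective]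
    · simp
    · intro t t' h
      have h6 : i.1 * d + t.1 = i.1 * d + t'.1 := congrArg Fin.val h
      apply Fin.ext
      omega
  set g : (Fin q → Bool) → (Fin n → Bool) := fun u j => u (b j) with hg
  have hginj : Function.Injective g := by
    intro u v huv
    funext i
    have h1 := hb i
    have h2 : (univ.filter (fun j : Fin n => b j = i)).Nonempty := by
      rw [← Finset.card_pos]; omega
    obtain ⟨j, hj⟩ := h2
    rw [Finset.mem_filter] at hj
    have h3 := congrFun huv j
    rw [hg] at h3
    simpa [hj.2] using h3
  refine ⟨univ.image g, ?_, ?_, ?_⟩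
  · rw [Finset.card_image_of_injective _ hginj]; simp
  · intro x hx y hy hxy
    rw [Finset.mem_image] at hx hy
    obtain ⟨u, _, rfl⟩ := hx
    obtain ⟨v, _, rfl⟩ := hy
    have huv : u ≠ v := fun h => hxy (by rw [h])
    obtain ⟨i, hi⟩ := Function.ne_iff.1 huv
    refine (hb i).trans (Finset.card_le_card ?_)
    intro j hj
    rw [Finset.mem_filter] at hj ⊢
    refine ⟨Finset.mem_univ _, ?_⟩
    change u (b j) ≠ v (b j)
    rw [hj.2]
    exact hi
  · intro k f a ha
    have h1 : ∀ i, ∃ u : Fin q → Bool, g u = a i := by
      intro i
      have := ha i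
      rw [Finset.coe_image, Set.mem_image] at this
      obtain ⟨u, _, hu⟩ := this
      exact ⟨u, hu⟩
    choose u hu using h1
    rw [Finset.coe_image, Set.mem_image]
    refine ⟨fun s => f (fun i => u i s), by simp, ?_⟩
    funext j
    change f (fun i => u i (b j)) = f (fun i => a i j)
    congr 1
    funext i
    rw [← hu i]

/-- linear code -/
def IsLinear {n : ℕ} (C : Finset (Fin n → Bool)) : Prop :=
  (fun _ => false) ∈ C ∧ ∀ x ∈ C, ∀ y ∈ C, (fun j => x j ^^ y j) ∈ C

/-- a linear code containing the all-one word is closed under every affine operation -/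
theorem linear_closed {n k : ℕ} (f : (Fin k → Bool) → Bool) (hf : IsAffine f)
    (C : Finset (Fin n → Bool)) (hC : IsLinear C) (h1 : (fun _ => true) ∈ C) :
    Closed f (C : Set (Fin n → Bool)) := by
  classical
  intro a ha
  obtain ⟨h0, hadd⟩ := hC
  -- induction over the set of variables
  have key : ∀ S : Finset (Fin k),
      (fun j => f (fun i => a i j && decide (i ∈ S))) ∈ (C : Set (Fin n → Bool)) := by
    intro S
    induction S using Finset.induction_on with
    | empty =>
      have h2 : (fun j : Fin n => f (fun i => a i j && decide (i ∈ (∅ : Finset (Fin k))))) =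
          (fun _ => f (fun _ => false)) := by
        funext j; simp
      rw [h2]
      cases f (fun _ => false)
      · exact h0
      · exact h1
    | insert s S hs ih =>
      have h3 : ∀ j, f (fun i => a i j && decide (i ∈ insert s S)) =
          (f (fun i => a i j && decide (i ∈ S)) ^^
            (a s j && (f (fun i => decide (i = s)) ^^ f (fun _ => false)))) := by
        intro j
        have h4 := hf (fun i => a i j && decide (i ∈ S)) (fun i => a s j && decide (i = s))
          (fun _ => false)
        have h5 : (fun i => ((a i j && decide (i ∈ S)) ^^ (a s j && decide (i = s))) ^^ false) =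
            (fun i => a i j && decide (i ∈ insert s S)) := by
          funext i
          by_cases hi : i = s
          · subst hi
            simp [hs]
          · simp [hi]
        rw [h5] at h4
        rw [h4]
        cases a s j
        · simp
        · simp
      have h6 : (fun j => f (fun i => a i j && decide (i ∈ insert s S))) =
          (fun j => f (fun i => a i j && decide (i ∈ S)) ^^
            (a s j && (f (fun i => decide (i = s)) ^^ f (fun _ => false)))) := by
        funext j; exact h3 j
      rw [h6]
      refine hadd _ ih _ ?_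
      cases (f (fun i => decide (i = s)) ^^ f (fun _ => false))
      · have : (fun j => a s j && false) = (fun _ : Fin n => false) := by
          funext j; simp
        rw [this]; exact h0
      · have : (fun j => a s j && true) = a s := by
          funext j; simp
        rw [this]; exact ha s
  have h7 := key univ
  simpa using h7

theorem ball_card (n d : ℕ) (c : Fin n → Bool) :
    (univ.filter (fun x : Fin n → Bool => hammingDist x c < d)).card =
      ∑ i ∈ range d, n.choose i := by
  classical
  have h1 : (univ.filter (fun x : Fin n → Bool => hammingDist x c < d)).card =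
      ((univ : Finset (Finset (Fin n))).filter (fun A => A.card < d)).card := by
    refine Finset.card_bij (fun x _ => univ.filter (fun j => x j ≠ c j)) ?_ ?_ ?_
    · intro x hx
      rw [Finset.mem_filter] at hx ⊢
      exact ⟨Finset.mem_univ _, hx.2⟩
    · intro x _ y _ hxy
      funext j
      have h2 : j ∈ univ.filter (fun j => x j ≠ c j) ↔ j ∈ univ.filter (fun j => y j ≠ c j) := by
        rw [hxy]
      simp only [mem_filter, mem_univ, true_and] at h2
      revert h2
      cases x j <;> cases y j <;> cases c j <;> simp
    · intro A hA
      rw [Finset.mem_filter] at hA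
      refine ⟨fun j => c j ^^ decide (j ∈ A), ?_, ?_⟩
      · rw [Finset.mem_filter]
        refine ⟨Finset.mem_univ _, ?_⟩
        refine lt_of_le_of_lt (le_of_eq ?_) hA.2
        unfold hammingDist
        congr 1
        ext j
        by_cases hj : j ∈ A <;> simp [hj]
      · ext j
        by_cases hj : j ∈ A <;> simp [hj]
  rw [h1]
  have h2 : ((univ : Finset (Finset (Fin n))).filter (fun A => A.card < d)) =
      (range d).biUnion (fun i => Finset.powersetCard i univ) := by
    ext A
    simp only [mem_filter, mem_univ, true_and, mem_biUnion, mem_range, mem_powersetCard,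
      Finset.subset_univ]
    constructor
    · intro h; exact ⟨A.card, h, rfl⟩
    · rintro ⟨i, hi, h⟩; omega
  rw [h2, Finset.card_biUnion]
  · refine Finset.sum_congr rfl fun i _ => ?_
    rw [Finset.card_powersetCard]
    simp
  · intro i _ i' _ hii
    rw [Function.onFun, Finset.disjoint_left]
    intro A hA hA'
    rw [mem_powersetCard] at hA hA'
    exact hii (hA.2.symm.trans hA'.2)

/-- Gilbert's bound for linear codes containing the all-one word -/
theorem gilbert {n d : ℕ} (hd : 0 < d) (hdn : d ≤ n) :
    ∃ C : Finset (Fin n → Bool), IsLinear C ∧ (fun _ => true) ∈ C ∧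
      (∀ x ∈ C, ∀ y ∈ C, x ≠ y → d ≤ hammingDist x y) ∧
      2 ^ n ≤ C.card * ∑ i ∈ range d, n.choose i := by
  classical
  -- good codes
  set P : Finset (Fin n → Bool) → Prop := fun C => IsLinear C ∧ (fun _ => true) ∈ C ∧
      (∀ x ∈ C, ∀ y ∈ C, x ≠ y → d ≤ hammingDist x y) with hP
  have h0 : P {fun _ => false, fun _ => true} := by
    refine ⟨⟨by simp, ?_⟩, by simp, ?_⟩
    · intro x hx y hy
      rw [Finset.mem_insert, Finset.mem_singleton] at hx hy
      rcases hx with rfl | rfl <;> rcases hy with rfl | rfl <;> simp
    · intro x hx y hy hxy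
      rw [Finset.mem_insert, Finset.mem_singleton] at hx hy
      have hh : hammingDist (fun _ : Fin n => false) (fun _ : Fin n => true) = n := by
        unfold hammingDist; simp
      rcases hx with rfl | rfl <;> rcases hy with rfl | rfl
      · exact absurd rfl hxy
      · rw [hh]; exact hdn
      · rw [hammingDist_comm, hh]; exact hdn
      · exact absurd rfl hxy
  -- take one of maximal size
  obtain ⟨C, hC, hmax⟩ := Finset.exists_max_image
    ((univ : Finset (Finset (Fin n → Bool))).filter P) Finset.card
    ⟨_, Finset.mem_filter.2 ⟨Finset.mem_univ _, h0⟩⟩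
  rw [Finset.mem_filter] at hC
  obtain ⟨hlin, hone, hdist⟩ := hC.2
  refine ⟨C, hlin, hone, hdist, ?_⟩
  by_contra hcon
  push Not at hcon
  -- a word far from all codewords
  have h1 : ∃ v : Fin n → Bool, ∀ c ∈ C, d ≤ hammingDist v c := by
    by_contra h
    push Not at h
    have h2 : (univ : Finset (Fin n → Bool)) ⊆
        C.biUnion (fun c => univ.filter (fun x => hammingDist x c < d)) := by
      intro v _
      obtain ⟨c, hc, hvc⟩ := h v
      rw [Finset.mem_biUnion]
      exact ⟨c, hc, Finset.mem_filter.2 ⟨Finset.mem_univ _, hvc⟩⟩
    have h3 := Finset.card_le_card h2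
    have h4 := h3.trans Finset.card_biUnion_le
    rw [Finset.sum_congr rfl (fun c _ => ball_card n d c), Finset.sum_const, smul_eq_mul] at h4
    have h5 : (univ : Finset (Fin n → Bool)).card = 2 ^ n := by simp
    rw [h5] at h4
    omega
  obtain ⟨v, hv⟩ := h1
  have hvC : v ∉ C := by
    intro h
    have := hv v h
    rw [hammingDist_self] at this
    omega
  set tr : (Fin n → Bool) → (Fin n → Bool) := fun x j => v j ^^ x j with htr
  have htrj : ∀ (x : Fin n → Bool) (j : Fin n), tr x j = (v j ^^ x j) := fun _ _ => rfl
  have htrinj : Function.Injective tr := by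
    intro x y hxy
    funext j
    have := congrFun hxy j
    rw [htr] at this
    simpa using this
  set C' := C ∪ C.image tr with hC'
  have hmem' : ∀ x, x ∈ C' ↔ x ∈ C ∨ tr x ∈ C := by
    intro x
    rw [hC', Finset.mem_union, Finset.mem_image]
    constructor
    · rintro (h | ⟨y, hy, rfl⟩)
      · exact Or.inl h
      · right
        have : tr (tr y) = y := by
          funext j; rw [htr]; simp
        rw [this]; exact hy
    · rintro (h | h)
      · exact Or.inl h
      · right
        refine ⟨tr x, h, ?_⟩
        funext j; rw [htr]; simp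
  have hweight : ∀ x ∈ C', ∀ y ∈ C', x ≠ y → d ≤ hammingDist x y := by
    intro x hx y hy hxy
    rw [hmem'] at hx hy
    have hxd : ∀ x y : Fin n → Bool, hammingDist x y =
        hammingDist (fun j => x j ^^ y j) (fun _ => false) := by
      intro x y
      unfold hammingDist
      congr 1
      ext j
      simp
    rcases hx with hx | hx <;> rcases hy with hy | hy
    · exact hdist x hx y hy hxy
    · have h6 := hv _ (hlin.2 x hx _ hy)
      rw [hxd] at h6 ⊢
      refine h6.trans (le_of_eq ?_)
      congr 1
      funext j
      simp only [htrj]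
      cases v j <;> cases x j <;> cases y j <;> rfl
    · have h6 := hv _ (hlin.2 _ hx y hy)
      rw [hxd] at h6 ⊢
      refine h6.trans (le_of_eq ?_)
      congr 1
      funext j
      simp only [htrj]
      cases v j <;> cases x j <;> cases y j <;> rfl
    · have h6 := hdist _ hx _ hy (fun h => hxy (htrinj h))
      rw [hxd] at h6 ⊢
      refine h6.trans (le_of_eq ?_)
      congr 1
      funext j
      simp only [htrj]
      cases v j <;> cases x j <;> cases y j <;> rfl
  have hlin' : IsLinear C' := by
    refine ⟨(hmem' _).2 (Or.inl hlin.1), ?_⟩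
    intro x hx y hy
    rw [hmem'] at hx hy ⊢
    rcases hx with hx | hx <;> rcases hy with hy | hy
    · exact Or.inl (hlin.2 x hx y hy)
    · right
      have h6 := hlin.2 x hx _ hy
      have h7 : tr (fun j => x j ^^ y j) = (fun j => x j ^^ tr y j) := by
        funext j; simp only [htrj]; cases v j <;> cases x j <;> cases y j <;> rfl
      rw [h7]; exact h6
    · right
      have h6 := hlin.2 _ hx y hy
      have h7 : tr (fun j => x j ^^ y j) = (fun j => tr x j ^^ y j) := by
        funext j; simp only [htrj]; cases v j <;> cases x j <;> cases y j <;> rfl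
      rw [h7]; exact h6
    · left
      have h6 := hlin.2 _ hx _ hy
      have h7 : (fun j => x j ^^ y j) = (fun j => tr x j ^^ tr y j) := by
        funext j; simp only [htrj]; cases v j <;> cases x j <;> cases y j <;> rfl
      rw [h7]; exact h6
  have hP' : P C' := ⟨hlin', (hmem' _).2 (Or.inl hone), hweight⟩
  have h8 := hmax C' (Finset.mem_filter.2 ⟨Finset.mem_univ _, hP'⟩)
  have h9 : C ⊂ C' := by
    refine Finset.ssubset_iff_subset_ne.2 ⟨Finset.subset_union_left, ?_⟩
    intro h
    apply hvC
    rw [h, hmem']
    right
    have : tr v = fun _ => false := by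
      funext j; rw [htr]; simp
    rw [this]
    exact hlin.1
  have h10 := Finset.card_lt_card h9
  omega

end Pool.Agent.X27.Code
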