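import Mathlib
import Pool.Agent.X27.Code.Lin

set_option autoImplicit false

/-!
Auxiliary facts for the classification of codes closed under Boolean operations.
-/

namespace Pool.Agent.X27.Code

open Finset
open Pool.Agent.H523R4.BC (IsAffine Closed)

theorem eq_of_dep {k : ℕ} (f : (Fin k → Bool) → Bool) (x y : Fin k → Bool)
    (h : ∀ i, H523R4.BC.DependsOn f i → x i = y i) : f x = f y := by
  classical
  have key : ∀ T : Finset (Fin k), f (fun i => if i ∈ T then y i else x i) = f x := by
    intro T
    induction T using Finset.induction_on with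
    | empty => simp
    | insert s S hs ih =>
      by_cases hxy : x s = y s
      · rw [← ih]
        congr 1
        funext i
        by_cases hi : i = s
        · subst hi; simp [hs, hxy]
        · simp [hi]
      · have hnd : ¬ H523R4.BC.DependsOn f s := fun hd => hxy (h s hd)
        unfold H523R4.BC.DependsOn at hnd
        push Not at hnd
        have h1 := hnd (fun i => if i ∈ S then y i else x i)
        rw [← ih, ← h1]
        congr 1
        funext i
        by_cases hi : i = s
        · subst hi
          simp only [Finset.mem_insert, true_or, if_true, Function.update_self, hs, if_false]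
          revert hxy
          cases x i <;> cases y i <;> simp
        · simp [hi]
  have h2 := key univ
  simpa using h2.symm

/-- closure under an affine operation depending on two variables gives closure under `x + y + z` -/
theorem xor_closed {ι : Type} {k : ℕ} (f : (Fin k → Bool) → Bool) (hf : IsAffine f)
    (i j : Fin k) (hij : i ≠ j) (hi : H523R4.BC.DependsOn f i) (hj : H523R4.BC.DependsOn f j)
    (C : Set (ι → Bool)) (hC : Closed f C) :
    ∀ a ∈ C, ∀ b ∈ C, ∀ c ∈ C, (fun l => (a l ^^ b l) ^^ c l) ∈ C := by
  cases h0 : f (fun _ => false) with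
  | false => exact Pool.Agent.H523R4.BC.affine_closed f hf h0 i j hij hi hj C hC
  | true =>
    cases h1 : f (fun _ => true) with
    | false =>
      have hneg : ∀ p : Bool, f (fun _ => p) = !p := by
        intro p; cases p
        · exact h0
        · exact h1
      refine Pool.Agent.H523R4.BC.affine_closed (fun x => !f x) ?_ (by simp [h0]) i j hij ?_ ?_ C ?_
      · intro x y z
        have := hf x y z
        simp only
        rw [this]
        cases f x <;> cases f y <;> cases f z <;> rfl
      · obtain ⟨x, hx⟩ := hi
        exact ⟨x, fun h => hx (by simpa using h)⟩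
      · obtain ⟨x, hx⟩ := hj
        exact ⟨x, fun h => hx (by simpa using h)⟩
      · intro a ha
        have h2 := hC (fun _ => fun j => f (fun i => a i j)) (fun _ => hC a ha)
        have h3 : (fun j => f (fun _ : Fin k => f (fun i => a i j))) =
            (fun j => !f (fun i => a i j)) := by
          funext j; rw [hneg]
        rw [h3] at h2
        exact h2
    | true =>
      set g : (Fin k → Bool) → Bool := fun x => !f (fun i => !x i) with hg
      set D : Set (ι → Bool) := {x | (fun j => !x j) ∈ C} with hD
      have hdep : ∀ s, H523R4.BC.DependsOn f s → H523R4.BC.DependsOn g s := by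
        rintro s ⟨x, hx⟩
        refine ⟨fun i => !x i, ?_⟩
        intro h
        apply hx
        rw [hg] at h
        simp only [Bool.not_not, Bool.not_eq_not] at h
        have e : (fun i => !Function.update (fun i => !x i) s (x s) i) =
            Function.update x s (!x s) := by
          funext t
          by_cases ht : t = s
          · subst ht; simp
          · simp [ht]
        simpa [e] using h
      have h4 : ∀ a ∈ D, ∀ b ∈ D, ∀ c ∈ D, (fun l => (a l ^^ b l) ^^ c l) ∈ D := by
        refine Pool.Agent.H523R4.BC.affine_closed g ?_ (by rw [hg]; simp [h1]) i j hij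
          (hdep i hi) (hdep j hj) D ?_
        · intro x y z
          have := hf (fun i => !x i) (fun i => !y i) (fun i => !z i)
          rw [hg]
          have e : (fun i => !((x i ^^ y i) ^^ z i)) = (fun i => ((!x i) ^^ (!y i)) ^^ (!z i)) := by
            funext i
            cases x i <;> cases y i <;> cases z i <;> rfl
          simp only
          rw [e, this]
          cases f (fun i => !x i) <;> cases f (fun i => !y i) <;> cases f (fun i => !z i) <;> rfl
        · intro a ha
          have h2 := hC (fun i => fun j => !a i j) (fun i => ha i)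
          change (fun j => !(g (fun i => a i j))) ∈ C
          have h3 : (fun j => !(g (fun i => a i j))) = (fun j => f (fun i => !a i j)) := by
            funext j
            rw [hg]
            simp
          rw [h3]
          exact h2
      intro a ha b hb c hc
      have e2 : ∀ w : ι → Bool, w ∈ C → (fun j => !w j) ∈ D := by
        intro w hw
        change (fun j => !(!w j)) ∈ C
        simpa using hw
      have h5 := h4 _ (e2 a ha) _ (e2 b hb) _ (e2 c hc)
      change (fun j => !(((!a j) ^^ (!b j)) ^^ (!c j))) ∈ C at h5
      have e3 : (fun j => !(((!a j) ^^ (!b j)) ^^ (!c j))) = (fun l => (a l ^^ b l) ^^ c l) := by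
        funext j
        cases a j <;> cases b j <;> cases c j <;> rfl
      rw [e3] at h5
      exact h5

theorem hd_xor {n : ℕ} (x y c : Fin n → Bool) :
    hammingDist (fun j => x j ^^ c j) (fun j => y j ^^ c j) = hammingDist x y := by
  unfold hammingDist
  congr 1
  ext j
  simp

/-- translating a code -/
theorem translate_code {n : ℕ} (C : Finset (Fin n → Bool)) (c : Fin n → Bool) (d : ℕ)
    (hdist : ∀ x ∈ C, ∀ y ∈ C, x ≠ y → d ≤ hammingDist x y) :
    ∃ C' : Finset (Fin n → Bool), C'.card = C.card ∧
      (∀ x ∈ C', ∀ y ∈ C', x ≠ y → d ≤ hammingDist x y) ∧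
      ∀ x, x ∈ C' ↔ (fun j => x j ^^ c j) ∈ C := by
  classical
  have hinv : ∀ x : Fin n → Bool, (fun j => (fun j => x j ^^ c j) j ^^ c j) = x := by
    intro x; funext j; simp
  have hinj : Function.Injective (fun x : Fin n → Bool => fun j => x j ^^ c j) := by
    intro x y hxy
    rw [← hinv x, ← hinv y]
    funext j
    have := congrFun hxy j
    simp only at this ⊢
    rw [this]
  have hmem : ∀ x, x ∈ C.image (fun x : Fin n → Bool => fun j => x j ^^ c j) ↔
      (fun j => x j ^^ c j) ∈ C := by
    intro x
    rw [Finset.mem_image]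
    constructor
    · rintro ⟨y, hy, rfl⟩
      rw [hinv]; exact hy
    · intro h
      exact ⟨_, h, hinv x⟩
  refine ⟨C.image (fun x j => x j ^^ c j), Finset.card_image_of_injective _ hinj, ?_, hmem⟩
  intro x hx y hy hxy
  rw [hmem] at hx hy
  have h1 := hdist _ hx _ hy (fun h => hxy (by
    rw [← hinv x, ← hinv y]
    funext j
    have := congrFun h j
    simp only at this ⊢
    rw [this]))
  rwa [hd_xor] at h1

/-- volume of balls and entropy -/
theorem volume_le (δ : ℝ) (h0 : 0 < δ) (h1 : δ < 1 / 2) (n : ℕ) :
    ((∑ i ∈ range ⌈δ * n⌉₊, n.choose i : ℕ) : ℝ) ≤ Real.exp (n * Real.binEntropy δ) := by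
  have hδ1 : 0 < 1 - δ := by linarith
  have hcle : ⌈δ * n⌉₊ ≤ n + 1 := by
    have h2 : δ * n ≤ n := by
      have : (0 : ℝ) ≤ n := Nat.cast_nonneg n
      nlinarith
    exact (Nat.ceil_le.2 h2).trans (Nat.le_succ n)
  have hterm : ∀ i ∈ range ⌈δ * n⌉₊,
      Real.exp (-(n * Real.binEntropy δ)) ≤ δ ^ i * (1 - δ) ^ (n - i) := by
    intro i hi
    rw [Finset.mem_range] at hi
    have hi1 : (i : ℝ) < δ * n := Nat.lt_ceil.1 hi
    have hin : i ≤ n := by omega
    have h3 : δ ^ i * (1 - δ) ^ (n - i) =
        Real.exp (i * Real.log δ + ((n : ℝ) - i) * Real.log (1 - δ)) := by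
      rw [Real.exp_add, mul_comm (i : ℝ), mul_comm ((n : ℝ) - i), Real.exp_mul, Real.exp_mul,
        Real.exp_log h0, Real.exp_log hδ1, Real.rpow_natCast, ← Nat.cast_sub hin,
        Real.rpow_natCast]
    rw [h3, Real.exp_le_exp, Real.binEntropy_eq_negMulLog_add_negMulLog_one_sub,
      Real.negMulLog, Real.negMulLog]
    have h4 : Real.log δ ≤ Real.log (1 - δ) := Real.log_le_log h0 (by linarith)
    nlinarith [mul_nonneg (sub_nonneg.2 hi1.le) (sub_nonneg.2 h4)]
  have hsum : (∑ i ∈ range (n + 1), δ ^ i * (1 - δ) ^ (n - i) * (n.choose i : ℝ)) = 1 := by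
    have := add_pow δ (1 - δ) n
    rw [← this]
    have h5 : δ + (1 - δ) = 1 := by ring
    rw [h5, one_pow]
  have h6 : ((∑ i ∈ range ⌈δ * n⌉₊, n.choose i : ℕ) : ℝ) * Real.exp (-(n * Real.binEntropy δ)) ≤ 1 := by
    rw [Nat.cast_sum, Finset.sum_mul, ← hsum]
    refine le_trans (Finset.sum_le_sum (g := fun i => δ ^ i * (1 - δ) ^ (n - i) *
      (n.choose i : ℝ)) ?_) ?_
    · intro i hi
      rw [mul_comm]
      exact mul_le_mul_of_nonneg_right (hterm i hi) (Nat.cast_nonneg _)
    · refine Finset.sum_le_sum_of_subset_of_nonneg ?_ ?_
      · exact Finset.range_subset_range.2 hcle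
      · intro i _ _
        positivity
  rw [Real.exp_neg] at h6
  have h7 : 0 < Real.exp (n * Real.binEntropy δ) := Real.exp_pos _
  rwa [← div_eq_mul_inv, div_le_one h7] at h6

end Pool.Agent.X27.Code
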